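import Pool.Agent.H42K.Geo

/-! Almost disjoint triangles (MP_a19305_co): the upper bound by counting edges, and the limit of
`T n / n ^ 2`. -/

set_option autoImplicit false

namespace Pool.Agent.H62C

open Pool.Agent.H42K Filter Topology

theorem inter_le {P : Finset E3} {F : Finset (Finset E3)} (hF : IsAlmostDisjointFamily P F)
    [DecidableEq E3] : ∀ s ∈ F, ∀ t ∈ F, s ≠ t → (s ∩ t).card ≤ 1 := by
  intro s hs t ht hst
  rw [Finset.card_le_one]
  intro a ha b hb
  have ha' := Finset.mem_inter.1 ha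
  have hb' := Finset.mem_inter.1 hb
  have haT : a ∈ tri s ∩ tri t :=
    ⟨subset_convexHull ℝ _ (Finset.mem_coe.2 ha'.1), subset_convexHull ℝ _ (Finset.mem_coe.2 ha'.2)⟩
  have hbT : b ∈ tri s ∩ tri t :=
    ⟨subset_convexHull ℝ _ (Finset.mem_coe.2 hb'.1), subset_convexHull ℝ _ (Finset.mem_coe.2 hb'.2)⟩
  rcases hF.2 s hs t ht hst with h | ⟨v, _, _, h⟩
  · rw [Set.disjoint_iff_inter_eq_empty.1 h] at haT
    exact absurd haT (Set.notMem_empty _)
  · rw [h] at haT hbT
    have e1 : a = v := haT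
    have e2 : b = v := hbT
    rw [e1, e2]

theorem card_le {n : ℕ} {P : Finset E3} (hP : P.card = n) {F : Finset (Finset E3)}
    (hF : IsAlmostDisjointFamily P F) : 6 * F.card ≤ n * (n - 1) := by
  classical
  have hdis : ∀ s ∈ F, ∀ t ∈ F, s ≠ t → Disjoint (s.powersetCard 2) (t.powersetCard 2) := by
    intro s hs t ht hst
    rw [Finset.disjoint_left]
    intro e h1 h2
    rw [Finset.mem_powersetCard] at h1 h2
    have h3 : e ⊆ s ∩ t := Finset.subset_inter h1.1 h2.1
    have h4 := Finset.card_le_card h3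
    have h5 := inter_le hF s hs t ht hst
    omega
  have hsub : F.biUnion (fun t => t.powersetCard 2) ⊆ P.powersetCard 2 := by
    intro e he
    obtain ⟨t, ht, he'⟩ := Finset.mem_biUnion.1 he
    rw [Finset.mem_powersetCard] at he' ⊢
    exact ⟨he'.1.trans (hF.1 t ht).1, he'.2⟩
  have h1 := Finset.card_le_card hsub
  rw [Finset.card_biUnion hdis, Finset.card_powersetCard, hP] at h1
  have h2 : ∑ t ∈ F, (t.powersetCard 2).card = 3 * F.card := by
    rw [Finset.sum_congr rfl (g := fun _ => 3), Finset.sum_const, smul_eq_mul, mul_comm]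
    intro t ht
    rw [Finset.card_powersetCard, (hF.1 t ht).2.1]
    rfl
  rw [h2] at h1
  have h3 := Nat.triangle_succ (n - 1)
  rw [Nat.choose_two_right] at h1
  have h4 : 2 * (n * (n - 1) / 2) ≤ n * (n - 1) := Nat.mul_div_le _ _
  omega

/-- **the upper bound** -/
theorem T_upper (n : ℕ) : 6 * T n ≤ n * (n - 1) := by
  have hne : (sizes n).Nonempty := by
    obtain ⟨P, -, hP⟩ := Infinite.exists_superset_card_eq (∅ : Finset E3) n (by simp)
    exact ⟨0, P, hP, ∅, ⟨by simp, by simp⟩, rfl⟩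
  obtain ⟨P, hP, F, hF, h⟩ := Nat.sSup_mem hne (geo_sizes_bddAbove n)
  have h1 := card_le hP hF
  have h2 : T n = F.card := h.symm
  rw [h2]
  exact h1

theorem T_upper_real (n : ℕ) : (T n : ℝ) ≤ (n : ℝ) * ((n : ℝ) - 1) / 6 := by
  have h := T_upper n
  rcases Nat.eq_zero_or_pos n with rfl | hn
  · have h0 : T 0 = 0 := by omega
    simp [h0]
  · have h1 : (6 : ℝ) * (T n : ℝ) ≤ (n : ℝ) * ((n - 1 : ℕ) : ℝ) := by exact_mod_cast h
    rw [Nat.cast_sub hn, Nat.cast_one] at h1
    linarith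

/-- **the limit**, given the lower bound -/
theorem tendsto_of_lower
    (h : ∀ n : ℕ, ((n : ℝ) - 2) * ((n : ℝ) - 5) / 6 ≤ (T n : ℝ)) :
    Tendsto (fun n : ℕ => (T n : ℝ) / (n : ℝ) ^ 2) atTop (𝓝 (1 / 6)) := by
  have hlo : Tendsto (fun n : ℕ => 1 / 6 - (7 / 6) * ((n : ℝ))⁻¹) atTop (𝓝 (1 / 6)) := by
    have h1 := (tendsto_inv_atTop_nhds_zero_nat (𝕜 := ℝ)).const_mul (7 / 6)
    have h2 := (tendsto_const_nhds (x := (1 / 6 : ℝ)) (f := atTop (α := ℕ))).sub h1
    simpa using h2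
  refine tendsto_of_tendsto_of_tendsto_of_le_of_le' hlo tendsto_const_nhds ?_ ?_
  · filter_upwards [eventually_gt_atTop 0] with n hn
    have hn' : (0 : ℝ) < n := by exact_mod_cast hn
    rw [le_div_iff₀ (by positivity)]
    have e : (1 / 6 - 7 / 6 * ((n : ℝ))⁻¹) * (n : ℝ) ^ 2 = (n : ℝ) ^ 2 / 6 - 7 / 6 * n := by
      field_simp
    rw [e]
    have := h n
    nlinarith
  · filter_upwards [eventually_gt_atTop 0] with n hn
    have hn' : (0 : ℝ) < n := by exact_mod_cast hn
    rw [div_le_iff₀ (by positivity)]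
    have := T_upper_real n
    nlinarith

end Pool.Agent.H62C
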